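import Pool.Agent.H87.AQ.Targets

open scoped Classical ComplexConjugate

namespace AMq

open AMx

theorem e0_li (h1 : AMc.T_A1) (G : Type) [Group G] [Fintype G] :
    LinearIndependent ℂ (fun χ : Irr G => (χ : G → ℂ)) := by
  rw [linearIndependent_iff']
  intro s c hc θ hθ
  have hcard : (Nat.card G : ℂ) ≠ 0 := by
    exact_mod_cast Nat.card_pos.ne'
  have h2 : ∑ g, (∑ χ ∈ s, c χ • (χ : G → ℂ)) g * conj ((θ : G → ℂ) g) = 0 := by
    rw [hc]; simp
  have h3 : ∑ g, (∑ χ ∈ s, c χ • (χ : G → ℂ)) g * conj ((θ : G → ℂ) g) =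
      ∑ χ ∈ s, c χ * (if (χ : G → ℂ) = θ then (Nat.card G : ℂ) else 0) := by
    have : ∀ χ ∈ s, c χ * (if (χ : G → ℂ) = θ then (Nat.card G : ℂ) else 0) =
        ∑ g, c χ * ((χ : G → ℂ) g * conj ((θ : G → ℂ) g)) := by
      intro χ _
      rw [← Finset.mul_sum, h1 G χ θ χ.2 θ.2]
    rw [Finset.sum_congr rfl this, Finset.sum_comm]
    refine Finset.sum_congr rfl fun g _ => ?_
    rw [Finset.sum_apply, Finset.sum_mul]
    refine Finset.sum_congr rfl fun χ _ => ?_
    simp only [Pi.smul_apply, smul_eq_mul]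
    ring
  rw [h3, Finset.sum_eq_single θ] at h2
  · simp only [if_true] at h2
    exact (mul_eq_zero.1 h2).resolve_right hcard
  · intro χ _ hne
    rw [if_neg (fun h => hne (Subtype.ext h)), mul_zero]
  · intro h
    exact absurd hθ h

theorem e0 (h1 : AMc.T_A1) (h2 : AMc.T_A2) (h3 : AMc.T_A3) : T_E0 := by
  intro G _ _
  have hfin : (Irr G).Finite := by
    have := (e0_li h1 G).finite_of_isNoetherian
    exact Set.toFinite _
  have hexp : ∀ f : G → ℂ, CF f → ∀ x, (Nat.card G : ℂ) * f x =
      ∑ χ ∈ hfin.toFinset, (∑ g, f g * conj (χ g)) * χ x := by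
    intro f hf x
    have hz : (fun x => (Nat.card G : ℂ) * f x -
        ∑ χ ∈ hfin.toFinset, (∑ g, f g * conj (χ g)) * χ x) = 0 := by
      apply h2 G
      · intro g x
        rw [hf g x]
        congr 1
        refine Finset.sum_congr rfl fun χ hχ => ?_
        have hχ' : χ ∈ Irr G := hfin.mem_toFinset.1 hχ
        have hc := ((h3 G).2.1 χ ((h3 G).1 χ hχ').1).1
        rw [hc g x]
      · intro θ hθ
        have hθ' : θ ∈ hfin.toFinset := hfin.mem_toFinset.2 hθ
        have e1 : ∑ g, ((Nat.card G : ℂ) * f g -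
            ∑ χ ∈ hfin.toFinset, (∑ g, f g * conj (χ g)) * χ g) * conj (θ g) =
            (Nat.card G : ℂ) * (∑ g, f g * conj (θ g)) -
            ∑ χ ∈ hfin.toFinset, (∑ g, f g * conj (χ g)) * ∑ g, χ g * conj (θ g) := by
          simp only [sub_mul, Finset.sum_sub_distrib]
          congr 1
          · rw [Finset.mul_sum]
            refine Finset.sum_congr rfl fun g _ => ?_
            ring
          · simp only [Finset.sum_mul, Finset.mul_sum]
            rw [Finset.sum_comm]
            refine Finset.sum_congr rfl fun χ _ => ?_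
            refine Finset.sum_congr rfl fun a _ => ?_
            refine Finset.sum_congr rfl fun b _ => ?_
            ring
        rw [e1]
        have e2 : ∑ χ ∈ hfin.toFinset, (∑ g, f g * conj (χ g)) * ∑ g, χ g * conj (θ g) =
            (∑ g, f g * conj (θ g)) * (Nat.card G : ℂ) := by
          rw [Finset.sum_eq_single θ]
          · rw [h1 G θ θ hθ hθ, if_pos rfl]
          · intro χ hχ hne
            rw [h1 G χ θ (hfin.mem_toFinset.1 hχ) hθ, if_neg hne, mul_zero]
          · intro h
            exact absurd hθ' h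
        rw [e2]
        ring
    have := congrFun hz x
    simp only [Pi.zero_apply] at this
    linear_combination this
  refine ⟨hfin.toFinset, fun θ => hfin.mem_toFinset, hexp, ?_⟩
  have hδ : CF (fun x : G => if x = 1 then (1 : ℂ) else 0) := by
    intro g x
    have : g * x * g⁻¹ = 1 ↔ x = 1 := by
      rw [mul_inv_eq_one, mul_eq_left]
    simp only [this]
  have h4 := hexp _ hδ 1
  simp only [if_true, mul_one] at h4
  rw [h4]
  refine Finset.sum_congr rfl fun χ hχ => ?_
  have hχ' : χ ∈ Irr G := hfin.mem_toFinset.1 hχ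
  obtain ⟨d, _, hd⟩ := ((h3 G).1 χ hχ').2
  have : ∑ g : G, (if g = 1 then (1 : ℂ) else 0) * conj (χ g) = conj (χ 1) := by
    rw [Finset.sum_eq_single 1]
    · simp
    · intro b _ hb
      simp [hb]
    · intro h
      exact absurd (Finset.mem_univ _) h
  rw [this, hd]
  simp

end AMq
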