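import Pool.Agent.H87.AQ.Targets

open scoped Classical ComplexConjugate

namespace AMq

open AMx

theorem m1 (h3 : AMc.T_A3) (h4 : AMc.T_A4) : T_M1 := by
  intro X K _ _ _ _ j χ hχ θ hθ
  exact (h3 K).2.2.1 (fun k => χ (j k)) (h4.2.1 K X j χ ((h3 X).1 χ hχ).1) θ hθ

theorem m2 (hC1 : AMx.T_C1) (hC2 : AMx.T_C2) : T_M2 := by
  intro q hq X _ _ p
  have hprim := Complex.isPrimitiveRoot_exp q hq.out.ne_zero
  refine ⟨Complex.exp (2 * Real.pi * Complex.I / q), hprim.pow_eq_one,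
    hprim.ne_one hq.out.one_lt, ?_⟩
  generalize Complex.exp (2 * Real.pi * Complex.I / q) = ζ at hprim
  intro χ hχ c
  have hζ : ζ ^ q = 1 := hprim.pow_eq_one
  obtain ⟨hirr, -, -, -⟩ := hC1 X χ hχ
  set μ : X → ℂ := fun x => ζ ^ (c * (Multiplicative.toAdd (p x)).val) with hμ
  have hone : μ 1 = 1 := by
    simp [hμ]
  have hmul : ∀ x y, μ (x * y) = μ x * μ y := by
    intro x y
    have : NeZero q := ⟨hq.out.ne_zero⟩
    have hc : (ζ ^ c) ^ q = 1 := by rw [← pow_mul, mul_comm, pow_mul, hζ, one_pow]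
    simp only [hμ]
    rw [map_mul, toAdd_mul, ZMod.val_add, pow_mul, ← pow_eq_pow_mod _ hc, pow_add, ← pow_mul,
      ← pow_mul]
  have hinv : ∀ x, μ x * μ x⁻¹ = 1 := by
    intro x
    rw [← hmul, mul_inv_cancel, hone]
  apply hC2
  refine ⟨?_, ?_, ?_, ?_⟩
  · obtain ⟨r, hr, h1⟩ := hirr.pos
    refine ⟨r, hr, ?_⟩
    show μ 1 * χ 1 = r
    rw [hone, one_mul, h1]
  · intro g x
    show μ (g * x * g⁻¹) * χ (g * x * g⁻¹) = μ x * χ x
    rw [hirr.cf g x, hmul, hmul, mul_comm (μ g), mul_assoc (μ x), hinv, mul_one]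
  · intro a b ha hb
    show (∑ x, conv a b x * (μ x * χ x)) * (μ 1 * χ 1) =
      (∑ x, a x * (μ x * χ x)) * ∑ x, b x * (μ x * χ x)
    have hcf : ∀ a : X → ℂ, CF a → CF (fun x => a x * μ x) := by
      intro a ha g x
      show a (g * x * g⁻¹) * μ (g * x * g⁻¹) = a x * μ x
      rw [ha g x, hmul, hmul, mul_comm (μ g), mul_assoc (μ x), hinv, mul_one]
    have key := hirr.mul (fun x => a x * μ x) (fun x => b x * μ x) (hcf a ha) (hcf b hb)
    have e1 : ∀ x, conv (fun x => a x * μ x) (fun x => b x * μ x) x = conv a b x * μ x := by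
      intro x
      simp only [conv]
      rw [Finset.sum_mul]
      refine Finset.sum_congr rfl fun y _ => ?_
      have : μ x = μ y * μ (y⁻¹ * x) := by
        rw [← hmul, mul_inv_cancel_left]
      rw [this]
      ring
    simp only [e1] at key
    rw [hone, one_mul]
    simp only [mul_assoc] at key ⊢
    exact key
  · show ∑ x, (μ x * χ x) * (μ x⁻¹ * χ x⁻¹) = Nat.card X
    rw [← hirr.norm]
    refine Finset.sum_congr rfl fun x _ => ?_
    have := hinv x
    linear_combination (χ x * χ x⁻¹) * this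

end AMq
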